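import Mathlib

/-!
# The maximum number of maximal isotropic spaces of an alternating matrix space

For a field `F` with `q` elements let `maxCount F n` be the maximal number of maximal isotropic
spaces of an alternating matrix space `𝒜 ≤ Λ(n, q)`.  We prove
`q ^ ((n ^ 2 - 1) / 8) ≤ maxCount F n ≤ 4 (n + 1) q ^ ((n + 1) ^ 2 / 8)`, which determines the growth
`q ^ (n ^ 2 / 8 + O(n))` and improves the exponent `1 / 6` of the known upper bound to the optimal
value `1 / 8`.

Idea of the upper bound.  Choose `u₁, u₂, ...` at random, `u_{i + 1}` uniformly from the space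
`⟨u₁, ..., u_i⟩^⊥`.  A maximal isotropic space `U` of dimension `k` satisfies `U^⊥ = U`, and for every
ordered basis of `U` the dimensions of the spaces orthogonal to the first `i` and to the last `k - i`
basis vectors add up to at most `n + k`.  Hence the probabilities to choose a basis and the reversed
basis are at least `q ^ (- (k n + k ^ 2 + n - k) / 2)` in the geometric mean.  As `U` has at least
`q ^ (k ^ 2) / 4` ordered bases, there are at most `4 q ^ ((n - k) (k + 1) / 2)` such spaces `U`.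
-/

set_option linter.unusedSectionVars false

namespace Pool.Agent.Results.MP_cd3971_co.GrowthExponent

open Matrix Module Submodule

universe u

section defs

variable {F : Type u} [Field F] {n : ℕ}

/-- A matrix is alternating if `vᵗ A v = 0` for all vectors `v`. -/
def IsAlt (A : Matrix (Fin n) (Fin n) F) : Prop := ∀ v : Fin n → F, v ⬝ᵥ A *ᵥ v = 0

/-- Isotropic spaces of a matrix space. -/
def IsIso (𝒜 : Submodule F (Matrix (Fin n) (Fin n) F)) (U : Submodule F (Fin n → F)) : Prop :=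
  ∀ u ∈ U, ∀ u' ∈ U, ∀ A ∈ 𝒜, u ⬝ᵥ A *ᵥ u' = 0

/-- Maximal isotropic spaces of a matrix space. -/
def IsMaxIso (𝒜 : Submodule F (Matrix (Fin n) (Fin n) F)) (U : Submodule F (Fin n → F)) : Prop :=
  IsIso 𝒜 U ∧ ∀ U', IsIso 𝒜 U' → U ≤ U' → U' = U

/-- The maximum of the number of maximal isotropic spaces over all alternating matrix spaces. -/
noncomputable def maxCount (F : Type u) [Field F] (n : ℕ) : ℕ :=
  sSup {N : ℕ | ∃ 𝒜 : Submodule F (Matrix (Fin n) (Fin n) F), (∀ A ∈ 𝒜, IsAlt A) ∧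
    N = Nat.card {U : Submodule F (Fin n → F) // IsMaxIso 𝒜 U}}

/-- The vectors orthogonal to all elements of `S`. -/
def perp (𝒜 : Submodule F (Matrix (Fin n) (Fin n) F)) (S : Set (Fin n → F)) :
    Submodule F (Fin n → F) where
  carrier := {v | ∀ A ∈ 𝒜, ∀ s ∈ S, s ⬝ᵥ A *ᵥ v = 0}
  add_mem' := by
    intro a b ha hb A hA s hs
    rw [mulVec_add, dotProduct_add, ha A hA s hs, hb A hA s hs, add_zero]
  zero_mem' := by
    intro A _ s _
    rw [mulVec_zero, dotProduct_zero]
  smul_mem' := by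
    intro c v hv A hA s hs
    rw [mulVec_smul, dotProduct_smul, hv A hA s hs, smul_zero]

end defs

variable {F : Type u} [Field F] {n : ℕ} (𝒜 : Submodule F (Matrix (Fin n) (Fin n) F))

lemma mem_perp (S : Set (Fin n → F)) (v : Fin n → F) :
    v ∈ perp 𝒜 S ↔ ∀ A ∈ 𝒜, ∀ s ∈ S, s ⬝ᵥ A *ᵥ v = 0 := Iff.rfl

lemma perp_union (S T : Set (Fin n → F)) : perp 𝒜 (S ∪ T) = perp 𝒜 S ⊓ perp 𝒜 T := by
  ext v
  simp only [mem_perp, Submodule.mem_inf, Set.mem_union]
  constructor
  · intro h
    exact ⟨fun A hA s hs => h A hA s (Or.inl hs), fun A hA s hs => h A hA s (Or.inr hs)⟩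
  · rintro ⟨h1, h2⟩ A hA s (hs | hs)
    · exact h1 A hA s hs
    · exact h2 A hA s hs

lemma perp_span (S : Set (Fin n → F)) : perp 𝒜 (span F S : Set (Fin n → F)) = perp 𝒜 S := by
  ext v
  simp only [mem_perp]
  constructor
  · intro h A hA s hs
    exact h A hA s (subset_span hs)
  · intro h A hA s hs
    induction hs using Submodule.span_induction with
    | mem x hx => exact h A hA x hx
    | zero => rw [zero_dotProduct]
    | add x y _ _ hx hy => rw [add_dotProduct, hx, hy, add_zero]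
    | smul c x _ hx => rw [smul_dotProduct, hx, smul_zero]

lemma alt_swap {A : Matrix (Fin n) (Fin n) F} (hA : IsAlt A) (v w : Fin n → F) :
    v ⬝ᵥ A *ᵥ w = - (w ⬝ᵥ A *ᵥ v) := by
  have h := hA (v + w)
  rw [mulVec_add, dotProduct_add, add_dotProduct, add_dotProduct, hA v, hA w] at h
  linear_combination h

/-- A maximal isotropic space is its own orthogonal space. -/
lemma perp_eq (hA : ∀ A ∈ 𝒜, IsAlt A) {U : Submodule F (Fin n → F)} (hU : IsMaxIso 𝒜 U) :
    perp 𝒜 (U : Set (Fin n → F)) = U := by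
  apply le_antisymm
  · intro v hv
    have hiso : IsIso 𝒜 (U ⊔ span F {v}) := by
      intro x hx y hy A hAm
      obtain ⟨x1, hx1, x2, hx2, rfl⟩ := Submodule.mem_sup.1 hx
      obtain ⟨y1, hy1, y2, hy2, rfl⟩ := Submodule.mem_sup.1 hy
      obtain ⟨c, rfl⟩ := mem_span_singleton.1 hx2
      obtain ⟨d, rfl⟩ := mem_span_singleton.1 hy2
      have e1 : x1 ⬝ᵥ A *ᵥ y1 = 0 := hU.1 x1 hx1 y1 hy1 A hAm
      have e2 : x1 ⬝ᵥ A *ᵥ v = 0 := hv A hAm x1 hx1
      have e3 : v ⬝ᵥ A *ᵥ y1 = 0 := by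
        rw [alt_swap (hA A hAm), hv A hAm y1 hy1, neg_zero]
      have e4 : v ⬝ᵥ A *ᵥ v = 0 := hA A hAm v
      simp only [mulVec_add, dotProduct_add, add_dotProduct, mulVec_smul, dotProduct_smul,
        smul_dotProduct, e1, e2, e3, e4, smul_zero, add_zero]
    have h := hU.2 _ hiso le_sup_left
    rw [← h]
    exact (le_sup_right : span F {v} ≤ U ⊔ span F {v}) (mem_span_singleton_self v)
  · intro v hv A hAm s hs
    exact hU.1 s hs v hv A hAm

open Classical in
/-- The probability of choosing the vectors `b (k - 1)`, ..., `b 0` in this order. -/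
noncomputable def wt : (k : ℕ) → (Fin k → (Fin n → F)) → ℝ
  | 0, _ => 1
  | k + 1, b =>
    (if b 0 ∈ perp 𝒜 (Set.range (Fin.tail b)) then
      ((Nat.card F : ℝ) ^ (finrank F (perp 𝒜 (Set.range (Fin.tail b)))))⁻¹ else 0) *
      wt k (Fin.tail b)

lemma wt_nonneg (k : ℕ) (b : Fin k → (Fin n → F)) : 0 ≤ wt 𝒜 k b := by
  induction k with
  | zero => simp [wt]
  | succ k ih =>
    simp only [wt]
    refine mul_nonneg ?_ (ih _)
    split_ifs
    · positivity
    · exact le_refl _

lemma sum_wt [Fintype F] (k : ℕ) : ∑ b : Fin k → (Fin n → F), wt 𝒜 k b = 1 := by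
  classical
  induction k with
  | zero => simp [wt]
  | succ k ih =>
    rw [← (Fin.consEquiv (fun _ : Fin (k + 1) => (Fin n → F))).sum_comp,
      Fintype.sum_prod_type_right]
    rw [← ih]
    apply Finset.sum_congr rfl
    intro b _
    have e : ∀ v : Fin n → F, wt 𝒜 (k + 1) (Fin.consEquiv (fun _ : Fin (k + 1) => (Fin n → F)) (v, b))
        = (if v ∈ perp 𝒜 (Set.range b) then
          ((Nat.card F : ℝ) ^ (finrank F (perp 𝒜 (Set.range b))))⁻¹ else 0) * wt 𝒜 k b := by
      intro v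
      have e0 : (Fin.consEquiv (fun _ : Fin (k + 1) => (Fin n → F))) (v, b)
          = (Fin.cons v b : Fin (k + 1) → (Fin n → F)) := rfl
      have e2 : Fin.tail (Fin.cons v b : Fin (k + 1) → (Fin n → F)) = b := by
        funext i
        simp only [Fin.tail, Fin.cons_succ]
      rw [e0]
      simp only [wt]
      rw [e2, Fin.cons_zero]
    simp only [e]
    rw [← Finset.sum_mul, ← Finset.sum_filter, Finset.sum_const, nsmul_eq_mul]
    have hc : ((Finset.univ.filter fun v => v ∈ perp 𝒜 (Set.range b)).card : ℝ)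
        = (Nat.card F : ℝ) ^ (finrank F (perp 𝒜 (Set.range b))) := by
      have h1 := Module.natCard_eq_pow_finrank (K := F) (V := perp 𝒜 (Set.range b))
      rw [← Nat.cast_pow, ← h1, Nat.card_eq_fintype_card, Fintype.card_subtype]
    rw [hc, mul_inv_cancel₀, one_mul]
    have : (0 : ℝ) < Nat.card F := by
      exact_mod_cast Nat.card_pos
    positivity

/-- The exponent in the probability `wt`. -/
noncomputable def expo (k : ℕ) (b : Fin k → (Fin n → F)) : ℕ :=
  ∑ i ∈ Finset.range k, finrank F (perp 𝒜 (b '' {j | i + 1 ≤ j.val}))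

lemma tail_image {k : ℕ} (b : Fin (k + 1) → (Fin n → F)) (i : ℕ) :
    b '' {j | i + 1 ≤ j.val} = Fin.tail b '' {j | i ≤ j.val} := by
  apply Set.Subset.antisymm
  · rintro _ ⟨j, hj, rfl⟩
    have hj' : i + 1 ≤ j.val := hj
    refine ⟨⟨j.val - 1, by omega⟩, ?_, ?_⟩
    · change i ≤ j.val - 1
      omega
    · simp only [Fin.tail]
      congr 1
      apply Fin.ext
      simp only [Fin.val_succ]
      omega
  · rintro _ ⟨j, hj, rfl⟩
    have hj' : i ≤ j.val := hj
    refine ⟨j.succ, ?_, rfl⟩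
    change i + 1 ≤ j.succ.val
    rw [Fin.val_succ]
    omega

lemma wt_eq (k : ℕ) (b : Fin k → (Fin n → F)) (hb : ∀ i j, ∀ A ∈ 𝒜, b i ⬝ᵥ A *ᵥ b j = 0) :
    wt 𝒜 k b = ((Nat.card F : ℝ) ^ (expo 𝒜 k b))⁻¹ := by
  induction k with
  | zero => simp [wt, expo]
  | succ k ih =>
    have h0 : b 0 ∈ perp 𝒜 (Set.range (Fin.tail b)) := by
      rintro A hA _ ⟨i, rfl⟩
      exact hb _ _ A hA
    simp only [wt, if_pos h0]
    rw [ih (Fin.tail b) (fun i j => hb _ _)]
    have e : expo 𝒜 (k + 1) b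
        = finrank F (perp 𝒜 (Set.range (Fin.tail b))) + expo 𝒜 k (Fin.tail b) := by
      unfold expo
      rw [Finset.sum_range_succ', add_comm, tail_image]
      have e1 : Fin.tail b '' {j | 0 ≤ j.val} = Set.range (Fin.tail b) := by
        rw [← Set.image_univ]
        congr 1
        ext j
        exact ⟨fun _ => trivial, fun _ => Nat.zero_le _⟩
      rw [e1]
      congr 1
      apply Finset.sum_congr rfl
      intro i _
      rw [tail_image]
    rw [e, pow_add, mul_inv]

/-- The dimension of the space orthogonal to the first `i` vectors. -/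
noncomputable def pre {k : ℕ} (b : Fin k → (Fin n → F)) (i : ℕ) : ℕ :=
  finrank F (perp 𝒜 (b '' {j | j.val < i}))

/-- The dimension of the space orthogonal to all but the first `i` vectors. -/
noncomputable def suf {k : ℕ} (b : Fin k → (Fin n → F)) (i : ℕ) : ℕ :=
  finrank F (perp 𝒜 (b '' {j | i ≤ j.val}))

lemma expo_suf (k : ℕ) (b : Fin k → (Fin n → F)) :
    expo 𝒜 k b = ∑ i ∈ Finset.range k, suf 𝒜 b (i + 1) := rfl

lemma expo_rev (k : ℕ) (b : Fin k → (Fin n → F)) :
    expo 𝒜 k (b ∘ Fin.rev) = ∑ i ∈ Finset.range k, pre 𝒜 b i := by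
  unfold expo
  rw [← Finset.sum_range_reflect]
  apply Finset.sum_congr rfl
  intro i hi
  rw [Finset.mem_range] at hi
  unfold pre
  have e : (b ∘ Fin.rev) '' {j | k - 1 - i + 1 ≤ j.val} = b '' {j | j.val < i} := ?_
  · rw [e]
  apply Set.Subset.antisymm
  · rintro _ ⟨j, hj, rfl⟩
    have hj' : k - 1 - i + 1 ≤ j.val := hj
    refine ⟨Fin.rev j, ?_, rfl⟩
    change (Fin.rev j).val < i
    rw [Fin.val_rev]
    have := j.isLt
    omega
  · rintro _ ⟨j, hj, rfl⟩
    have hj' : j.val < i := hj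
    refine ⟨Fin.rev j, ?_, ?_⟩
    · change k - 1 - i + 1 ≤ (Fin.rev j).val
      rw [Fin.val_rev]
      have := j.isLt
      omega
    · simp

/-- The key inequality for the exponents of a basis and of the reversed basis. -/
lemma expo_add (hA : ∀ A ∈ 𝒜, IsAlt A) {U : Submodule F (Fin n → F)} (hU : IsMaxIso 𝒜 U)
    (k : ℕ) (hk : finrank F U = k) (b : Fin k → (Fin n → F)) (hb : span F (Set.range b) = U) :
    expo 𝒜 k b + expo 𝒜 k (b ∘ Fin.rev) + 2 * k ≤ (k + 1) * (n + k) := by
  have hperp : perp 𝒜 (Set.range b) = U := by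
    rw [← perp_span, hb, perp_eq 𝒜 hA hU]
  have hpk : pre 𝒜 b k = k := by
    unfold pre
    have : b '' {j | j.val < k} = Set.range b := by
      rw [← Set.image_univ]
      congr 1
      ext j
      exact ⟨fun _ => trivial, fun _ => j.isLt⟩
    rw [this, hperp, hk]
  have hs0 : suf 𝒜 b 0 = k := by
    unfold suf
    have : b '' {j | 0 ≤ j.val} = Set.range b := by
      rw [← Set.image_univ]
      congr 1
      ext j
      exact ⟨fun _ => trivial, fun _ => Nat.zero_le _⟩
    rw [this, hperp, hk]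
  have hsum : ∀ i, pre 𝒜 b i + suf 𝒜 b i ≤ n + k := by
    intro i
    unfold pre suf
    have h1 := Submodule.finrank_sup_add_finrank_inf_eq (perp 𝒜 (b '' {j | j.val < i}))
      (perp 𝒜 (b '' {j | i ≤ j.val}))
    have h2 : perp 𝒜 (b '' {j | j.val < i}) ⊓ perp 𝒜 (b '' {j | i ≤ j.val}) = U := by
      rw [← perp_union, ← Set.image_union]
      have : ({j | j.val < i} ∪ {j | i ≤ j.val} : Set (Fin k)) = Set.univ := by
        ext j
        exact ⟨fun _ => trivial, fun _ => lt_or_ge j.val i⟩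
      rw [this, Set.image_univ, hperp]
    rw [h2, hk] at h1
    have h3 := Submodule.finrank_le (perp 𝒜 (b '' {j | j.val < i}) ⊔
      perp 𝒜 (b '' {j | i ≤ j.val}))
    rw [Module.finrank_fin_fun] at h3
    omega
  have htot : ∑ i ∈ Finset.range (k + 1), (pre 𝒜 b i + suf 𝒜 b i) ≤ (k + 1) * (n + k) := by
    calc ∑ i ∈ Finset.range (k + 1), (pre 𝒜 b i + suf 𝒜 b i)
        ≤ ∑ _i ∈ Finset.range (k + 1), (n + k) := Finset.sum_le_sum (fun i _ => hsum i)
      _ = (k + 1) * (n + k) := by rw [Finset.sum_const, Finset.card_range, smul_eq_mul]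
  rw [Finset.sum_add_distrib, Finset.sum_range_succ, hpk, Finset.sum_range_succ' (suf 𝒜 b), hs0,
    ← expo_rev, ← expo_suf] at htot
  omega

/-- Partial products of `∏ (1 - x ^ j)`. -/
lemma prod_bound (x : ℝ) (h0 : 0 ≤ x) (h1 : x ≤ 1 / 2) (k : ℕ) :
    1 / 4 ≤ ∏ i ∈ Finset.range k, (1 - x ^ (i + 1)) := by
  rcases Nat.eq_zero_or_pos k with rfl | hk
  · norm_num
  have key : ∀ k : ℕ, 1 ≤ k →
      1 - x - x ^ 2 + x ^ (k + 1) ≤ ∏ i ∈ Finset.range k, (1 - x ^ (i + 1)) := by
    intro k hk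
    induction k, hk using Nat.le_induction with
    | base => simp
    | succ k hk ih =>
      rw [Finset.prod_range_succ]
      have hx1 : x ^ (k + 1) ≤ 1 := pow_le_one₀ h0 (by linarith)
      have h2 : (1 - x - x ^ 2 + x ^ (k + 1)) * (1 - x ^ (k + 1))
          ≤ (∏ i ∈ Finset.range k, (1 - x ^ (i + 1))) * (1 - x ^ (k + 1)) :=
        mul_le_mul_of_nonneg_right ih (by linarith)
      refine le_trans ?_ h2
      have h3 : x ^ (k + 1) * x ^ (k + 1) ≤ x ^ (k + 1) * x ^ 2 := by
        apply mul_le_mul_of_nonneg_left _ (by positivity)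
        exact pow_le_pow_of_le_one h0 (by linarith) (by omega)
      have h4 : x ^ (k + 1 + 1) = x ^ (k + 1) * x := pow_succ _ _
      rw [h4]
      nlinarith
  have h := key k hk
  have h5 : 0 ≤ x ^ (k + 1) := by positivity
  nlinarith

/-- The tuples which are a basis of `U`. -/
def IsBas (U : Submodule F (Fin n → F)) (k : ℕ) (b : Fin k → (Fin n → F)) : Prop :=
  LinearIndependent F b ∧ span F (Set.range b) = U

lemma card_bas [Fintype F] (U : Submodule F (Fin n → F)) (k : ℕ) (hk : finrank F U = k) :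
    (1 / 4 : ℝ) * (Fintype.card F : ℝ) ^ (k * k) ≤ Nat.card {b // IsBas U k b} := by
  classical
  have e : Nat.card {b // IsBas U k b} = Nat.card {s : Fin k → U // LinearIndependent F s} := by
    apply Nat.card_congr
    refine
      { toFun := fun b => ⟨fun i => ⟨b.1 i, ?_⟩, ?_⟩
        invFun := fun s => ⟨fun i => (s.1 i : Fin n → F), ?_, ?_⟩
        left_inv := ?_
        right_inv := ?_ }
    · exact b.2.2.le (subset_span ⟨i, rfl⟩)
    · apply LinearIndependent.of_comp U.subtype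
      exact b.2.1
    · exact s.2.map' U.subtype (Submodule.ker_subtype U)
    · have h1 : span F (Set.range (fun i => (s.1 i : Fin n → F))) ≤ U := by
        rw [span_le]
        rintro _ ⟨i, rfl⟩
        exact (s.1 i).2
      apply Submodule.eq_of_le_of_finrank_eq h1
      rw [hk, finrank_span_eq_card, Fintype.card_fin]
      exact s.2.map' U.subtype (Submodule.ker_subtype U)
    · intro b
      rfl
    · intro s
      rfl
  rw [e, card_linearIndependent (by rw [hk])]
  rw [hk]
  have hq : 2 ≤ Fintype.card F := by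
    have := Fintype.one_lt_card (α := F)
    omega
  have hq' : (2 : ℝ) ≤ (Fintype.card F : ℝ) := by exact_mod_cast hq
  set q : ℝ := (Fintype.card F : ℝ) with hqdef
  have hcast : ((∏ i : Fin k, (Fintype.card F ^ k - Fintype.card F ^ i.val) : ℕ) : ℝ)
      = ∏ i : Fin k, (q ^ k - q ^ i.val) := by
    rw [Nat.cast_prod]
    apply Finset.prod_congr rfl
    intro i _
    rw [Nat.cast_sub, Nat.cast_pow, Nat.cast_pow]
    exact Nat.pow_le_pow_right (by omega) i.isLt.le
  rw [hcast, Fin.prod_univ_eq_prod_range (fun i => q ^ k - q ^ i) k]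
  have hfac : ∏ i ∈ Finset.range k, (q ^ k - q ^ i)
      = q ^ (k * k) * ∏ i ∈ Finset.range k, (1 - (1 / q) ^ (i + 1)) := by
    have hc : ∏ _i ∈ Finset.range k, q ^ k = q ^ (k * k) := by
      rw [Finset.prod_const, Finset.card_range, ← pow_mul]
    rw [← hc, ← Finset.prod_mul_distrib, ← Finset.prod_range_reflect]
    apply Finset.prod_congr rfl
    intro i hi
    rw [Finset.mem_range] at hi
    have hq0 : q ≠ 0 := by positivity
    have hpow : q ^ k = q ^ (k - 1 - i) * q ^ (i + 1) := by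
      rw [← pow_add]
      congr 1
      omega
    rw [mul_sub, mul_one, one_div, inv_pow]
    congr 1
    rw [hpow, mul_assoc, mul_inv_cancel₀ (pow_ne_zero _ hq0), mul_one]
  rw [hfac, mul_comm]
  apply mul_le_mul_of_nonneg_left _ (by positivity)
  apply prod_bound
  · positivity
  · exact one_div_le_one_div_of_le (by norm_num) hq'

lemma amgm (q : ℝ) (hq : 2 ≤ q) (x y E : ℕ) (h : x + y ≤ E) :
    2 * q ^ (-(E : ℝ) / 2) ≤ (q ^ x)⁻¹ + (q ^ y)⁻¹ := by
  have hq0 : 0 < q := by linarith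
  have hx : (q ^ x)⁻¹ = (q ^ (-(x : ℝ) / 2)) ^ 2 := by
    rw [← Real.rpow_natCast q x, ← Real.rpow_neg hq0.le, ← Real.rpow_natCast,
      ← Real.rpow_mul hq0.le]
    congr 1
    push_cast
    ring
  have hy : (q ^ y)⁻¹ = (q ^ (-(y : ℝ) / 2)) ^ 2 := by
    rw [← Real.rpow_natCast q y, ← Real.rpow_neg hq0.le, ← Real.rpow_natCast,
      ← Real.rpow_mul hq0.le]
    congr 1
    push_cast
    ring
  have hxy : q ^ (-(E : ℝ) / 2) ≤ q ^ (-(x : ℝ) / 2) * q ^ (-(y : ℝ) / 2) := by
    rw [← Real.rpow_add hq0]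
    apply Real.rpow_le_rpow_of_exponent_le (by linarith)
    have : (x : ℝ) + y ≤ E := by exact_mod_cast h
    linarith
  rw [hx, hy]
  nlinarith [sq_nonneg (q ^ (-(x : ℝ) / 2) - q ^ (-(y : ℝ) / 2))]

open Classical in
/-- The probability of choosing a basis of a given maximal isotropic space. -/
lemma weight_bound [Fintype F] (hA : ∀ A ∈ 𝒜, IsAlt A) {U : Submodule F (Fin n → F)}
    (hU : IsMaxIso 𝒜 U) (k : ℕ) (hk : finrank F U = k) :
    (1 / 4 : ℝ) * (Fintype.card F : ℝ) ^ (-(((n : ℝ) - k) * (k + 1)) / 2)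
      ≤ ∑ b ∈ Finset.univ.filter (fun b : Fin k → (Fin n → F) => IsBas U k b), wt 𝒜 k b := by
  have hq : (2 : ℝ) ≤ (Fintype.card F : ℝ) := by
    have := Fintype.one_lt_card (α := F)
    exact_mod_cast this
  have hcb := card_bas U k hk
  set q : ℝ := (Fintype.card F : ℝ) with hqdef
  have hq0 : 0 < q := by linarith
  set B := Finset.univ.filter (fun b : Fin k → (Fin n → F) => IsBas U k b) with hB
  have hcard : (B.card : ℝ) = Nat.card {b // IsBas U k b} := by
    rw [Nat.card_eq_fintype_card, Fintype.card_subtype]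
  have hmem : ∀ b, b ∈ B ↔ IsBas U k b := by
    intro b
    simp [hB]
  have hrange : ∀ b : Fin k → (Fin n → F), Set.range (b ∘ Fin.rev) = Set.range b := by
    intro b
    rw [Set.range_comp, (Fin.rev_involutive).surjective.range_eq, Set.image_univ]
  have hrev : ∀ b, IsBas U k b → IsBas U k (b ∘ Fin.rev) := by
    rintro b ⟨h1, h2⟩
    refine ⟨h1.comp _ Fin.rev_involutive.injective, ?_⟩
    rw [hrange, h2]
  have hwt : ∀ b, IsBas U k b → wt 𝒜 k b = (q ^ expo 𝒜 k b)⁻¹ := by
    rintro b ⟨_, h2⟩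
    rw [wt_eq, Nat.card_eq_fintype_card]
    intro i j A hAm
    apply hU.1 _ _ _ _ A hAm
    · rw [← h2]
      exact subset_span ⟨i, rfl⟩
    · rw [← h2]
      exact subset_span ⟨j, rfl⟩
  have hinv : ∀ b : Fin k → (Fin n → F), (b ∘ Fin.rev) ∘ Fin.rev = b := by
    intro b
    funext i
    simp
  have hsum : ∑ b ∈ B, wt 𝒜 k b = ∑ b ∈ B, wt 𝒜 k (b ∘ Fin.rev) := by
    apply Finset.sum_nbij' (fun b => b ∘ Fin.rev) (fun b => b ∘ Fin.rev)
    · intro b hb
      rw [hmem] at hb ⊢
      exact hrev b hb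
    · intro b hb
      rw [hmem] at hb ⊢
      exact hrev b hb
    · intro b _
      exact hinv b
    · intro b _
      exact hinv b
    · intro b _
      rw [hinv]
  have hkn : k ≤ n := by
    have := Submodule.finrank_le U
    rw [Module.finrank_fin_fun, hk] at this
    exact this
  set E : ℕ := (k + 1) * (n + k) - 2 * k with hE
  have hEk : 2 * k ≤ (k + 1) * (n + k) := by nlinarith
  have hEr : (E : ℝ) = (k + 1) * (n + k) - 2 * k := by
    rw [hE, Nat.cast_sub hEk]
    push_cast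
    ring
  have h2 : (B.card : ℝ) * (2 * q ^ (-(E : ℝ) / 2)) ≤ 2 * ∑ b ∈ B, wt 𝒜 k b := by
    have h3 : 2 * ∑ b ∈ B, wt 𝒜 k b = ∑ b ∈ B, (wt 𝒜 k b + wt 𝒜 k (b ∘ Fin.rev)) := by
      rw [Finset.sum_add_distrib, ← hsum, two_mul]
    rw [h3, ← nsmul_eq_mul, ← Finset.sum_const]
    apply Finset.sum_le_sum
    intro b hb
    rw [hmem] at hb
    rw [hwt b hb, hwt _ (hrev b hb)]
    apply amgm q hq
    have := expo_add 𝒜 hA hU k hk b hb.2
    omega
  have h4 : (1 / 4 : ℝ) * q ^ (k * k) * q ^ (-(E : ℝ) / 2) ≤ ∑ b ∈ B, wt 𝒜 k b := by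
    have h5 : (1 / 4 : ℝ) * q ^ (k * k) ≤ B.card := by rw [hcard]; exact hcb
    have h6 : (1 / 4 : ℝ) * q ^ (k * k) * q ^ (-(E : ℝ) / 2) ≤ B.card * q ^ (-(E : ℝ) / 2) :=
      mul_le_mul_of_nonneg_right h5 (by positivity)
    linarith
  refine le_trans (le_of_eq ?_) h4
  rw [mul_assoc]
  congr 1
  rw [← Real.rpow_natCast q (k * k), ← Real.rpow_add hq0]
  congr 1
  rw [hEr]
  push_cast
  ring

open Classical in
/-- The number of maximal isotropic spaces of a given dimension. -/
lemma count_dim [Fintype F] [Fintype (Submodule F (Fin n → F))] (hA : ∀ A ∈ 𝒜, IsAlt A) (k : ℕ) :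
    ((Finset.univ.filter fun U : Submodule F (Fin n → F) =>
      IsMaxIso 𝒜 U ∧ finrank F U = k).card : ℝ)
      ≤ 4 * (Fintype.card F : ℝ) ^ (((n : ℝ) + 1) ^ 2 / 8) := by
  have hq : (2 : ℝ) ≤ (Fintype.card F : ℝ) := by
    have := Fintype.one_lt_card (α := F)
    exact_mod_cast this
  set q : ℝ := (Fintype.card F : ℝ) with hqdef
  have hq0 : 0 < q := by linarith
  set 𝒰 := Finset.univ.filter fun U : Submodule F (Fin n → F) => IsMaxIso 𝒜 U ∧ finrank F U = k
    with h𝒰
  have hmem : ∀ U, U ∈ 𝒰 ↔ IsMaxIso 𝒜 U ∧ finrank F U = k := by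
    intro U
    simp [h𝒰]
  have hdisj : (𝒰 : Set (Submodule F (Fin n → F))).PairwiseDisjoint
      (fun U => Finset.univ.filter (fun b : Fin k → (Fin n → F) => IsBas U k b)) := by
    intro U _ U' _ hne
    rw [Function.onFun, Finset.disjoint_left]
    intro b hb hb'
    rw [Finset.mem_filter] at hb hb'
    exact hne (hb.2.2.symm.trans hb'.2.2)
  have h1 : ∑ U ∈ 𝒰, ∑ b ∈ Finset.univ.filter (fun b : Fin k → (Fin n → F) => IsBas U k b),
      wt 𝒜 k b ≤ 1 := by
    rw [← Finset.sum_biUnion hdisj, ← sum_wt 𝒜 k]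
    exact Finset.sum_le_univ_sum_of_nonneg (fun b => wt_nonneg 𝒜 k b)
  have h2 : (𝒰.card : ℝ) * ((1 / 4 : ℝ) * q ^ (-(((n : ℝ) - k) * (k + 1)) / 2)) ≤ 1 := by
    refine le_trans ?_ h1
    rw [← nsmul_eq_mul, ← Finset.sum_const]
    apply Finset.sum_le_sum
    intro U hU
    rw [hmem] at hU
    exact weight_bound 𝒜 hA hU.1 k hU.2
  have h3 : q ^ (-(((n : ℝ) + 1) ^ 2 / 8)) ≤ q ^ (-(((n : ℝ) - k) * (k + 1)) / 2) := by
    apply Real.rpow_le_rpow_of_exponent_le (by linarith)
    nlinarith [sq_nonneg ((n : ℝ) - k - (k + 1))]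
  have h4 : (𝒰.card : ℝ) * ((1 / 4 : ℝ) * q ^ (-(((n : ℝ) + 1) ^ 2 / 8))) ≤ 1 := by
    refine le_trans ?_ h2
    apply mul_le_mul_of_nonneg_left _ (Nat.cast_nonneg _)
    apply mul_le_mul_of_nonneg_left h3 (by norm_num)
  rw [Real.rpow_neg hq0.le] at h4
  have h5 : 0 < q ^ (((n : ℝ) + 1) ^ 2 / 8) := Real.rpow_pos_of_pos hq0 _
  have h6 : (𝒰.card : ℝ) * ((1 / 4 : ℝ) * (q ^ (((n : ℝ) + 1) ^ 2 / 8))⁻¹)
      = 𝒰.card / (4 * q ^ (((n : ℝ) + 1) ^ 2 / 8)) := by
    field_simp
  rw [h6, div_le_one (by positivity)] at h4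
  exact h4

/-- The upper bound for the number of maximal isotropic spaces. -/
theorem upper [Finite F] (hA : ∀ A ∈ 𝒜, IsAlt A) :
    (Nat.card {U : Submodule F (Fin n → F) // IsMaxIso 𝒜 U} : ℝ)
      ≤ 4 * (n + 1) * (Nat.card F : ℝ) ^ (((n : ℝ) + 1) ^ 2 / 8) := by
  classical
  have := Fintype.ofFinite F
  have hfin : Finite (Submodule F (Fin n → F)) :=
    Finite.of_injective (fun U : Submodule F (Fin n → F) => (U : Set (Fin n → F)))
      SetLike.coe_injective
  have := Fintype.ofFinite (Submodule F (Fin n → F))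
  rw [Nat.card_eq_fintype_card, Fintype.card_subtype, Nat.card_eq_fintype_card]
  rw [Finset.card_eq_sum_card_fiberwise (f := fun U : Submodule F (Fin n → F) => finrank F U)
    (t := Finset.range (n + 1))]
  · push_cast
    have h1 : ∀ k ∈ Finset.range (n + 1),
        (((Finset.univ.filter fun U : Submodule F (Fin n → F) => IsMaxIso 𝒜 U).filter
          fun U : Submodule F (Fin n → F) => finrank F U = k).card : ℝ)
          ≤ 4 * (Fintype.card F : ℝ) ^ (((n : ℝ) + 1) ^ 2 / 8) := by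
      intro k _
      rw [Finset.filter_filter]
      exact count_dim 𝒜 hA k
    refine (Finset.sum_le_sum h1).trans ?_
    rw [Finset.sum_const, Finset.card_range, nsmul_eq_mul]
    push_cast
    apply le_of_eq
    ring
  · intro U _
    have := Submodule.finrank_le U
    rw [Module.finrank_fin_fun] at this
    simp only [Finset.coe_range, Set.mem_Iio]
    omega

/-! ### The lower bound -/

section lower

variable {m : ℕ}

/-- The first half of the coordinates. -/
def ia (hm : 2 * m ≤ n) (i : Fin m) : Fin n := ⟨i.val, by omega⟩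

/-- The second half of the coordinates. -/
def ib (hm : 2 * m ≤ n) (i : Fin m) : Fin n := ⟨i.val + m, by omega⟩

/-- The matrix of a symplectic form of rank `2 m`. -/
def symp (F : Type u) [Field F] (hm : 2 * m ≤ n) : Matrix (Fin n) (Fin n) F :=
  ∑ i : Fin m, (Matrix.single (ia hm i) (ib hm i) 1 - Matrix.single (ib hm i) (ia hm i) 1)

lemma symp_apply (hm : 2 * m ≤ n) (v w : Fin n → F) : v ⬝ᵥ symp F hm *ᵥ w
    = ∑ i : Fin m, (v (ia hm i) * w (ib hm i) - v (ib hm i) * w (ia hm i)) := by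
  unfold symp
  rw [Matrix.sum_mulVec, dotProduct_sum]
  apply Finset.sum_congr rfl
  intro i _
  rw [Matrix.sub_mulVec, dotProduct_sub]
  have h : ∀ x y : Fin n, v ⬝ᵥ (Matrix.single x y (1 : F)) *ᵥ w = v x * w y := by
    intro x y
    simp [dotProduct, Matrix.mulVec, Matrix.single_apply, Finset.sum_ite_eq, ite_and]
  rw [h, h]

/-- The graph of a symmetric matrix. -/
def graph (hm : 2 * m ≤ n) (g : Sym2 (Fin m) → F) : Submodule F (Fin n → F) where
  carrier := {v | ∀ i : Fin m, v (ib hm i) = ∑ j : Fin m, g s(i, j) * v (ia hm j)}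
  add_mem' := by
    intro a b ha hb i
    simp only [Pi.add_apply, mul_add, Finset.sum_add_distrib]
    rw [ha i, hb i]
  zero_mem' := by
    intro i
    simp
  smul_mem' := by
    intro c a ha i
    simp only [Pi.smul_apply, smul_eq_mul]
    rw [ha i, Finset.mul_sum]
    apply Finset.sum_congr rfl
    intro j _
    ring

lemma mem_graph (hm : 2 * m ≤ n) (g : Sym2 (Fin m) → F) (v : Fin n → F) :
    v ∈ graph hm g ↔ ∀ i : Fin m, v (ib hm i) = ∑ j : Fin m, g s(i, j) * v (ia hm j) := Iff.rfl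

/-- Test vectors. -/
def tst (n : ℕ) (g : Sym2 (Fin m) → F) (i : Fin m) : Fin n → F := fun x =>
  if x.val < m then (if x.val = i.val then 1 else 0) else
    if h : x.val - m < m then g s(⟨x.val - m, h⟩, i) else 0

lemma tst_ia (hm : 2 * m ≤ n) (g : Sym2 (Fin m) → F) (i j : Fin m) :
    tst n g i (ia hm j) = if j = i then 1 else 0 := by
  unfold tst ia
  simp [Fin.ext_iff]

lemma tst_ib (hm : 2 * m ≤ n) (g : Sym2 (Fin m) → F) (i j : Fin m) : tst n g i (ib hm j) = g s(j, i) := by
  unfold tst ib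
  simp

lemma tst_mem (hm : 2 * m ≤ n) (g : Sym2 (Fin m) → F) (i : Fin m) : tst n g i ∈ graph hm g := by
  intro j
  simp [tst_ia, tst_ib]

lemma graph_max (hm : 2 * m ≤ n) (g : Sym2 (Fin m) → F) : IsMaxIso (span F {symp F hm}) (graph hm g) := by
  constructor
  · intro u hu u' hu' A hA
    obtain ⟨c, rfl⟩ := mem_span_singleton.1 hA
    rw [smul_mulVec, dotProduct_smul, symp_apply]
    rw [mem_graph] at hu hu'
    have e : ∑ i : Fin m, (u (ia hm i) * u' (ib hm i) - u (ib hm i) * u' (ia hm i)) = 0 := by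
      rw [Finset.sum_sub_distrib, sub_eq_zero]
      simp only [hu, hu', Finset.mul_sum, Finset.sum_mul]
      rw [Finset.sum_comm]
      apply Finset.sum_congr rfl
      intro i _
      apply Finset.sum_congr rfl
      intro j _
      rw [Sym2.eq_swap]
      ring
    rw [e, smul_zero]
  · intro U' hU' hle
    apply le_antisymm _ hle
    intro v hv i
    have h := hU' v hv (tst n g i) (hle (tst_mem hm g i)) (symp F hm) (mem_span_singleton_self _)
    rw [symp_apply] at h
    simp only [tst_ia, tst_ib, Finset.sum_sub_distrib, mul_ite, mul_one, mul_zero,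
      Finset.sum_ite_eq', Finset.mem_univ, if_true] at h
    rw [sub_eq_zero] at h
    rw [← h]
    apply Finset.sum_congr rfl
    intro j _
    rw [Sym2.eq_swap, mul_comm]

lemma graph_inj (hm : 2 * m ≤ n) : Function.Injective (graph (F := F) hm) := by
  intro g g' h
  funext z
  induction z using Sym2.inductionOn with
  | _ j i =>
    have h1 : tst n g i ∈ graph hm g' := by
      rw [← h]
      exact tst_mem hm g i
    have h2 := h1 j
    simp only [tst_ia, tst_ib, mul_ite, mul_one, mul_zero, Finset.sum_ite_eq', Finset.mem_univ,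
      if_true] at h2
    exact h2

lemma symp_alt (hm : 2 * m ≤ n) : ∀ A ∈ span F {symp F hm}, IsAlt A := by
  intro A hA v
  obtain ⟨c, rfl⟩ := mem_span_singleton.1 hA
  rw [smul_mulVec, dotProduct_smul, symp_apply]
  have : ∑ i : Fin m, (v (ia hm i) * v (ib hm i) - v (ib hm i) * v (ia hm i)) = 0 := by
    apply Finset.sum_eq_zero
    intro i _
    ring
  rw [this, smul_zero]

end lower

lemma lower (F : Type u) [Field F] [Finite F] (n : ℕ) :
    ∃ 𝒜 : Submodule F (Matrix (Fin n) (Fin n) F), (∀ A ∈ 𝒜, IsAlt A) ∧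
      (Nat.card F : ℝ) ^ (((n : ℝ) ^ 2 - 1) / 8)
        ≤ Nat.card {U : Submodule F (Fin n → F) // IsMaxIso 𝒜 U} := by
  have hm : 2 * (n / 2) ≤ n := by omega
  refine ⟨span F {symp F hm}, symp_alt hm, ?_⟩
  have hfin : Finite (Submodule F (Fin n → F)) :=
    Finite.of_injective (fun U : Submodule F (Fin n → F) => (U : Set (Fin n → F)))
      SetLike.coe_injective
  let f : (Sym2 (Fin (n / 2)) → F) →
      {U : Submodule F (Fin n → F) // IsMaxIso (span F {symp F hm}) U} :=
    fun g => ⟨graph hm g, graph_max hm g⟩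
  have hf : Function.Injective f := by
    intro g g' h
    apply graph_inj hm
    exact congrArg Subtype.val h
  have h1 := Nat.card_le_card_of_injective f hf
  have h2 : Nat.card (Sym2 (Fin (n / 2)) → F) = Nat.card F ^ ((n / 2 + 1).choose 2) := by
    rw [Nat.card_fun, Nat.card_eq_fintype_card (α := Sym2 (Fin (n / 2))), Sym2.card,
      Fintype.card_fin]
  rw [h2] at h1
  have h3 : ((Nat.card F : ℝ)) ^ ((n / 2 + 1).choose 2) ≤
      (Nat.card {U : Submodule F (Fin n → F) // IsMaxIso (span F {symp F hm}) U} : ℝ) := by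
    exact_mod_cast h1
  refine le_trans ?_ h3
  have hq : (1 : ℝ) ≤ Nat.card F := by
    exact_mod_cast Nat.card_pos
  rw [← Real.rpow_natCast _ ((n / 2 + 1).choose 2)]
  apply Real.rpow_le_rpow_of_exponent_le hq
  rw [Nat.cast_choose_two]
  have h4 : ((n : ℝ) - 1) / 2 ≤ ((n / 2 : ℕ) : ℝ) := by
    have : n ≤ 2 * (n / 2) + 1 := by omega
    have h5 : (n : ℝ) ≤ 2 * ((n / 2 : ℕ) : ℝ) + 1 := by exact_mod_cast this
    linarith
  have h6 : (0 : ℝ) ≤ ((n / 2 : ℕ) : ℝ) := Nat.cast_nonneg _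
  push_cast at *
  rcases Nat.eq_zero_or_pos n with rfl | hn
  · norm_num
  · have h7 : (1 : ℝ) ≤ n := by exact_mod_cast hn
    nlinarith

/-- **Q1 of MP_cd3971_co: the growth of `M(n, q)`.**  For every finite field `F` with `q` elements
and every `n`, the maximum `maxCount F n` over all alternating matrix spaces `𝒜 ≤ Λ(n, q)` of the
number of maximal isotropic spaces of `𝒜` satisfies
`q ^ ((n ^ 2 - 1) / 8) ≤ maxCount F n ≤ 4 (n + 1) q ^ ((n + 1) ^ 2 / 8)`.  So it is
`q ^ (n ^ 2 / 8 + O(n))`. -/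
theorem result : ∀ (F : Type u) [Field F] [Finite F] (n : ℕ),
    (Nat.card F : ℝ) ^ (((n : ℝ) ^ 2 - 1) / 8) ≤ (maxCount F n : ℝ) ∧
    (maxCount F n : ℝ) ≤ 4 * (n + 1) * (Nat.card F : ℝ) ^ (((n : ℝ) + 1) ^ 2 / 8) := by
  intro F _ _ n
  have hfin : Finite (Submodule F (Fin n → F)) :=
    Finite.of_injective (fun U : Submodule F (Fin n → F) => (U : Set (Fin n → F)))
      SetLike.coe_injective
  have hbdd : BddAbove {N : ℕ | ∃ 𝒜 : Submodule F (Matrix (Fin n) (Fin n) F), (∀ A ∈ 𝒜, IsAlt A) ∧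
      N = Nat.card {U : Submodule F (Fin n → F) // IsMaxIso 𝒜 U}} := by
    refine ⟨Nat.card (Submodule F (Fin n → F)), ?_⟩
    rintro N ⟨𝒜, _, rfl⟩
    exact Nat.card_le_card_of_injective _ Subtype.val_injective
  have hne : {N : ℕ | ∃ 𝒜 : Submodule F (Matrix (Fin n) (Fin n) F), (∀ A ∈ 𝒜, IsAlt A) ∧
      N = Nat.card {U : Submodule F (Fin n → F) // IsMaxIso 𝒜 U}}.Nonempty := by
    obtain ⟨𝒜, h, _⟩ := lower F n
    exact ⟨_, 𝒜, h, rfl⟩
  constructor
  · obtain ⟨𝒜, h, hle⟩ := lower F n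
    refine hle.trans ?_
    exact_mod_cast le_csSup hbdd ⟨𝒜, h, rfl⟩
  · obtain ⟨𝒜, h, heq⟩ := Nat.sSup_mem hne hbdd
    unfold maxCount
    rw [heq]
    exact upper 𝒜 h

end Pool.Agent.Results.MP_cd3971_co.GrowthExponent
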